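import Pool.Agent.W795.TQ.PStm
import Pool.Agent.W734.NS.Win

/-!
Leray's lower bound of the enstrophy at a singular time.
-/

open MeasureTheory Set Filter Topology H459R3.NS Pool.Agent.W734.NS
open scoped ContDiff ENNReal

namespace Pool.Agent.W636.TQ

theorem pd_sub_const (f : V → ℝ) (c : ℝ) (j : Fin 3) : pd j (fun x => f x - c) = pd j f := by
  funext x
  unfold pd
  rw [fderiv_sub_const]

theorem sp_const (c : ℝ) : SP (fun _ : V => c) := ⟨contDiff_const, fun _ _ => rfl⟩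

/-- the enstrophy production of a field with mean zero -/
theorem cub_zero : ∃ C : ℝ, 0 ≤ C ∧ ∀ (w : Fin 3 → V → ℝ) (g q : ℝ), (∀ i, SP (w i)) →
    (∀ i, ∫ x in cube, w i x = 0) → 0 ≤ g → 0 ≤ q →
    ∑ i, ∑ j, ∫ x in cube, pd j (w i) x ^ 2 = g ^ 4 → ∑ i, ∫ x in cube, lap (w i) x ^ 2 = q ^ 4 →
    |cub w| ≤ C * (g ^ 3 * q ^ 3) := by
  obtain ⟨C1, hC10, hC1⟩ := mul_of_Lp (p := 6) (by norm_num)
  obtain ⟨C2, hC20, hC2⟩ := sobolev6
  refine ⟨54 * (C1 * C2), by positivity, fun w g q hw hint hg hq hG hH => ?_⟩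
  have hw' : GH2 w (1 * g ^ 2) (1 * q ^ 2) := ⟨hw, by positivity, by positivity,
    by rw [hG]; exact le_of_eq (by ring), by rw [hH]; exact le_of_eq (by ring)⟩
  have hgrd : ∀ i, grd (w i) ≤ g ^ 2 := by
    intro i
    refine Real.sqrt_le_iff.2 ⟨by positivity, ?_⟩
    have h1 := Finset.single_le_sum (f := fun i => ∑ j, ∫ x in cube, pd j (w i) x ^ 2)
      (fun _ _ => Finset.sum_nonneg fun _ _ => integral_nonneg fun _ => sq_nonneg _)
      (Finset.mem_univ i)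
    refine h1.trans (le_of_eq (hG.trans (by ring)))
  have hM : ∀ i, Mul (th 6) (C1 * (C2 * g ^ 2)) (w i) := by
    intro i
    refine hC1 (w i) (C2 * g ^ 2) (hw i).cont (by positivity) ?_
    refine (hC2 (w i) (hw i) (hint i)).trans (ENNReal.ofReal_le_ofReal ?_)
    exact mul_le_mul_of_nonneg_left (hgrd i) hC20
  have h1 := abs_C3_m1 hw hM (by positivity) (th_nonneg 6) (th_lt_one (by norm_num))
    (sq_nonneg g) (sq_nonneg q) zero_le_one zero_le_one hw' hw'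
  rw [cub_eq]
  refine h1.trans (le_of_eq ?_)
  rw [th_six]
  have e1 : (1 - 1 / 2 : ℝ) = 1 / 2 := by norm_num
  have e2 : ∀ a : ℝ, 0 ≤ a → (a ^ 2) ^ (1 / 2 : ℝ) = a := fun a ha => by
    rw [← Real.sqrt_eq_rpow, Real.sqrt_sq ha]
  rw [e1, e2 g hg, e2 q hq]
  ring

/-- the enstrophy production -/
theorem cub_all : ∃ C : ℝ, 0 ≤ C ∧ ∀ (v : Fin 3 → V → ℝ) (g q : ℝ), (∀ i, SP (v i)) →
    0 ≤ g → 0 ≤ q →
    ∑ i, ∑ j, ∫ x in cube, pd j (v i) x ^ 2 = g ^ 4 → ∑ i, ∫ x in cube, lap (v i) x ^ 2 = q ^ 4 →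
    |cub v| ≤ C * (g ^ 3 * q ^ 3) := by
  obtain ⟨C, hC0, hC⟩ := cub_zero
  refine ⟨C, hC0, fun v g q hv hg hq hG hH => ?_⟩
  let w : Fin 3 → V → ℝ := fun i x => v i x - ∫ y in cube, v i y
  have hpd : ∀ i j, pd j (w i) = pd j (v i) := fun i j => pd_sub_const (v i) _ j
  have hlap : ∀ i, lap (w i) = lap (v i) := by
    intro i
    funext x
    unfold lap
    refine Finset.sum_congr rfl fun j _ => ?_
    rw [hpd]
  have hcub : cub w = cub v := by
    unfold cub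
    simp only [hpd]
  have hsp : ∀ i, SP (w i) := fun i => (hv i).sub (sp_const _)
  have hint : ∀ i, ∫ x in cube, w i x = 0 := by
    intro i
    change ∫ x in cube, (v i x - ∫ y in cube, v i y) = 0
    rw [integral_sub (hv i).int (sp_const _).int, setIntegral_const, Measure.real, volume_cube]
    simp
  have h := hC w g q hsp hint hg hq (by simp only [hpd]; exact hG) (by simp only [hlap]; exact hH)
  rwa [hcub] at h

/-- the differential inequality -/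
theorem deriv_bd : ∃ C : ℝ, 0 ≤ C ∧ ∀ (T : ℝ) (u : ℝ → V → V) (p : ℝ → V → ℝ),
    IsSol 1 T u p → ∀ t ∈ Ioo 0 T,
    -(2 * 1 * palin (u t)) - 2 * cub (fun i y => u t y i) ≤ C * enstrophy (u t) ^ 3 := by
  obtain ⟨C, hC0, hC⟩ := cub_all
  refine ⟨2 * C ^ 4, by positivity, fun T u p h t ht => ?_⟩
  have hI : t ∈ Ico 0 T := ⟨ht.1.le, ht.2⟩
  obtain ⟨g, hg0, hg⟩ : ∃ g : ℝ, 0 ≤ g ∧ g ^ 4 = enstrophy (u t) :=
    ⟨Real.sqrt (Real.sqrt (enstrophy (u t))), Real.sqrt_nonneg _, by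
      rw [show (4 : ℕ) = 2 * 2 by norm_num, pow_mul, Real.sq_sqrt (Real.sqrt_nonneg _),
        Real.sq_sqrt (enstrophy_nonneg _)]⟩
  obtain ⟨q, hq0, hq⟩ : ∃ q : ℝ, 0 ≤ q ∧ q ^ 4 = palin (u t) :=
    ⟨Real.sqrt (Real.sqrt (palin (u t))), Real.sqrt_nonneg _, by
      rw [show (4 : ℕ) = 2 * 2 by norm_num, pow_mul, Real.sq_sqrt (Real.sqrt_nonneg _),
        Real.sq_sqrt (palin_nonneg _)]⟩
  have hb := hC (fun i y => u t y i) g q (fun i => h.sp hI i) hg0 hq0 hg.symm hq.symm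
  have hb' := (abs_le.1 hb).1
  rw [← hg, ← hq]
  have key : 2 * (C * (g ^ 3 * q ^ 3)) ≤ 2 * q ^ 4 + 2 * C ^ 4 * (g ^ 4) ^ 3 := by
    rcases le_total (C * g ^ 3) q with hle | hle
    · have h1 : C * g ^ 3 * q ^ 3 ≤ q * q ^ 3 := mul_le_mul_of_nonneg_right hle (by positivity)
      have h2 : 0 ≤ 2 * C ^ 4 * (g ^ 4) ^ 3 := by positivity
      nlinarith
    · have h1 : q ^ 3 ≤ (C * g ^ 3) ^ 3 := pow_le_pow_left₀ hq0 hle 3
      have h2 : C * g ^ 3 * q ^ 3 ≤ C * g ^ 3 * (C * g ^ 3) ^ 3 :=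
        mul_le_mul_of_nonneg_left h1 (by positivity)
      have h3 : 0 ≤ q ^ 4 := by positivity
      nlinarith
  linarith

theorem proof : Pool.Agent.W795.TQ.S_leray := by
  obtain ⟨C, hC0, hC⟩ := deriv_bd
  refine ⟨2 * C + 1, by positivity, fun T u p h t0 ht0 hlt => ?_⟩
  set y : ℝ → ℝ := fun s => enstrophy (u s) with hy
  have hy0 : ∀ s, 0 ≤ y s := fun s => enstrophy_nonneg _
  have hT : 0 < T - t0 := sub_pos.2 ht0.2
  have hlt' : 2 * C * (y t0 + 0) ^ 2 * (T - t0) < 1 := by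
    refine lt_of_le_of_lt ?_ hlt
    have h1 : 0 ≤ y t0 ^ 2 * (T - t0) := by positivity
    change 2 * C * (y t0 + 0) ^ 2 * (T - t0) ≤ (2 * C + 1) * y t0 ^ 2 * (T - t0)
    nlinarith
  have hcont : Continuous fun e : ℝ => 2 * C * (y t0 + e) ^ 2 * (T - t0) := by fun_prop
  have hev : ∀ᶠ e in 𝓝 (0 : ℝ), 2 * C * (y t0 + e) ^ 2 * (T - t0) < 1 :=
    hcont.continuousAt.eventually_lt continuousAt_const hlt'
  obtain ⟨r, hr, hre⟩ := Metric.eventually_nhds_iff.1 hev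
  obtain ⟨e, he, hlt2⟩ : ∃ e : ℝ, 0 < e ∧ 2 * C * (y t0 + e) ^ 2 * (T - t0) < 1 := by
    refine ⟨r / 2, by positivity, hre ?_⟩
    rw [Real.dist_eq, sub_zero, abs_of_pos (by positivity)]
    linarith
  have hycont : ContinuousOn y (Ico 0 T) := h.enstrophy_continuousOn
  let F : ℝ → ℝ := fun t => ((y t + e) ^ 2)⁻¹ + 2 * C * t
  have hpos : ∀ t, 0 < y t + e := fun t => by linarith [hy0 t]
  have hFd : ∀ t ∈ Ioo t0 T, ∃ d : ℝ, 0 ≤ d ∧ HasDerivAt F d t := by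
    intro t ht
    have hti : t ∈ Ioo 0 T := ⟨ht0.1.trans ht.1, ht.2⟩
    have hd := h.enstrophy_hasDerivAt hti
    have hb := hC T u p h t hti
    set y' := -(2 * 1 * palin (u t)) - 2 * cub (fun i y => u t y i) with hy'
    have h1 : HasDerivAt (fun s => (y s + e) ^ 2) (2 * (y t + e) * y') t := by
      have := (hd.add_const e).pow 2
      refine this.congr_deriv ?_
      simp [hy]
    have h2 : HasDerivAt (fun s => ((y s + e) ^ 2)⁻¹) (-(2 * (y t + e) * y') /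
        ((y t + e) ^ 2) ^ 2) t := h1.inv (by have := hpos t; positivity)
    have h3 : HasDerivAt F (-(2 * (y t + e) * y') / ((y t + e) ^ 2) ^ 2 + 2 * C * 1) t :=
      h2.add ((hasDerivAt_id t).const_mul (2 * C))
    refine ⟨_, ?_, h3⟩
    have hp := hpos t
    rw [mul_one, ← sub_neg_eq_add, sub_nonneg, le_div_iff₀ (by positivity)]
    have h4 : y' ≤ C * (y t + e) ^ 3 := hb.trans
      (mul_le_mul_of_nonneg_left (pow_le_pow_left₀ (hy0 t) (by linarith) 3) hC0)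
    have h5 : 2 * (y t + e) * y' ≤ 2 * (y t + e) * (C * (y t + e) ^ 3) :=
      mul_le_mul_of_nonneg_left h4 (by positivity)
    nlinarith
  have hFc : ContinuousOn F (Ico t0 T) := by
    have h1 : ContinuousOn y (Ico t0 T) :=
      hycont.mono fun s hs => ⟨ht0.1.le.trans hs.1, hs.2⟩
    refine ContinuousOn.add (ContinuousOn.inv₀ ((h1.add continuousOn_const).pow 2) ?_)
      (continuousOn_const.mul continuousOn_id)
    intro t _
    have := hpos t
    positivity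
  have hmono : MonotoneOn F (Ico t0 T) := by
    refine monotoneOn_of_deriv_nonneg (convex_Ico t0 T) hFc ?_ ?_
    · rw [interior_Ico]
      intro t ht
      obtain ⟨d, _, hd⟩ := hFd t ht
      exact hd.differentiableAt.differentiableWithinAt
    · rw [interior_Ico]
      intro t ht
      obtain ⟨d, hd0, hd⟩ := hFd t ht
      rw [hd.deriv]
      exact hd0
  obtain ⟨Y1, hY1⟩ : ∃ Y1, ∀ t ∈ Icc 0 t0, y t ≤ Y1 := by
    have h1 : ContinuousOn y (Icc 0 t0) :=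
      hycont.mono fun s hs => ⟨hs.1, hs.2.trans_lt ht0.2⟩
    obtain ⟨Y1, hY1⟩ := (isCompact_Icc.image_of_continuousOn h1).bddAbove
    exact ⟨Y1, fun t ht => hY1 (mem_image_of_mem _ ht)⟩
  set κ : ℝ := ((y t0 + e) ^ 2)⁻¹ - 2 * C * (T - t0) with hκ
  have hκ0 : 0 < κ := by
    have hp := hpos t0
    rw [hκ, sub_pos, ← one_div, lt_div_iff₀ (by positivity)]
    linarith
  have hlate : ∀ t ∈ Ico t0 T, y t ≤ 1 + κ⁻¹ := by
    intro t ht
    have h1 := hmono (left_mem_Ico.2 ht0.2) ht ht.1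
    have hp := hpos t
    change ((y t0 + e) ^ 2)⁻¹ + 2 * C * t0 ≤ ((y t + e) ^ 2)⁻¹ + 2 * C * t at h1
    have h2 : κ ≤ ((y t + e) ^ 2)⁻¹ := by
      have h3 : 2 * C * t ≤ 2 * C * T := mul_le_mul_of_nonneg_left ht.2.le (by positivity)
      rw [hκ]
      nlinarith
    have h3 : (y t + e) ^ 2 ≤ κ⁻¹ := by
      rw [le_inv_comm₀ (by positivity) hκ0]
      exact h2
    nlinarith [sq_nonneg (y t + e - 1)]
  refine bounded_of_enstrophy h one_pos (Y := max Y1 (1 + κ⁻¹)) fun t ht => ?_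
  rcases le_total t t0 with hle | hle
  · exact (hY1 t ⟨ht.1, hle⟩).trans (le_max_left _ _)
  · exact (hlate t ⟨hle, ht.2⟩).trans (le_max_right _ _)

end Pool.Agent.W636.TQ
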